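import Mathlib

/-!
Squad PSC (Pisot substitution conjecture), module Pa: the volume argument for the existence of
good patches, abstract form.
-/

set_option autoImplicit false

open MeasureTheory Set Filter Topology

namespace Pool.Agent.PSC.H94

/-- Sets `L n '' S n G` (`G : ι n`) which cover almost every point at most `k` times and become
small; those which are bad meet the compact set `K0` of positive measure in a null set only.  Then
there are arbitrarily large balls of good indices. -/
theorem patch {m : ℕ} (k : ENNReal) (hk : k ≠ ⊤) (K0 : Set (Fin m → ℝ)) (hK : IsCompact K0)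
    (hpos : 0 < volume K0) (ι : ℕ → Type*) [∀ n, Countable (ι n)] (p : ∀ n, ι n → (Fin m → ℝ))
    (S : ∀ n, ι n → Set (Fin m → ℝ)) (R0 : ℝ)
    (hS : ∀ n G, S n G ⊆ Metric.closedBall (p n G) R0) (V0 : ENNReal) (hV0 : V0 ≠ 0)
    (hV0t : V0 ≠ ⊤) (hV : ∀ n G, V0 ≤ volume (S n G))
    (L : ∀ n, (Fin m → ℝ) →ₗ[ℝ] (Fin m → ℝ)) (hdet : ∀ n, LinearMap.det (L n) ≠ 0) (θ : ℕ → ℝ)
    (hθ0 : ∀ n, 0 ≤ θ n)
    (hθ : Tendsto θ atTop (𝓝 0)) (hL : ∀ n v, ‖L n v‖ ≤ θ n * ‖v‖) (good : ∀ n, ι n → Prop)
    (hnull : ∀ n G, ¬ good n G → volume (L n '' S n G ∩ K0) = 0)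
    (hmult : ∀ n, ∀ A, MeasurableSet A → ∑' G, volume (L n '' S n G ∩ A) ≤ k * volume A)
    (ρ : ℝ) : ∃ n0, ∀ n, n0 ≤ n → ∃ y0, ∀ G, ‖p n G - y0‖ ≤ ρ → good n G := by
  classical
  -- the volume of the collar
  have hcol : Tendsto (fun ε : ℝ => volume (Metric.cthickening ε K0)) (𝓝 0) (𝓝 (volume K0)) :=
    tendsto_measure_cthickening_of_isCompact hK
  have hKt : volume K0 ≠ ⊤ := hK.measure_lt_top.ne
  set c : ENNReal := volume (Metric.closedBall (0 : Fin m → ℝ) ρ) with hc
  have hct : c ≠ ⊤ := measure_closedBall_lt_top.ne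
  have hε : Tendsto (fun n => θ n * (ρ + R0)) atTop (𝓝 0) := by
    simpa using hθ.mul_const (ρ + R0)
  have hlim : Tendsto (fun n => c * (k * (volume (Metric.cthickening (θ n * (ρ + R0)) K0) -
      volume K0)) / V0) atTop (𝓝 (c * (k * (volume K0 - volume K0)) / V0)) := by
    have h1 : Tendsto (fun n => volume (Metric.cthickening (θ n * (ρ + R0)) K0) - volume K0) atTop
        (𝓝 (volume K0 - volume K0)) :=
      ENNReal.Tendsto.sub (hcol.comp hε) tendsto_const_nhds (Or.inl hKt)
    have h2 := ENNReal.Tendsto.const_mul (a := k) h1 (Or.inr hk)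
    have h3 := ENNReal.Tendsto.const_mul (a := c) h2 (Or.inr hct)
    exact ENNReal.Tendsto.div_const h3 (Or.inr hV0)
  rw [tsub_self, mul_zero, mul_zero, ENNReal.zero_div] at hlim
  obtain ⟨n0, hn0⟩ := eventually_atTop.1 (hlim.eventually (gt_mem_nhds hpos))
  refine ⟨n0, fun n hn => ?_⟩
  have hlt := hn0 n hn
  set ε : ℝ := θ n * (ρ + R0) with hεd
  set W : Set (Fin m → ℝ) := Metric.cthickening ε K0 with hW
  have hWm : MeasurableSet W := Metric.isClosed_cthickening.measurableSet
  have hKm : MeasurableSet K0 := hK.measurableSet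
  set Bad : Set (ι n) := {G | ¬ good n G ∧ L n '' S n G ⊆ W} with hBad
  set D : ENNReal := ENNReal.ofReal |LinearMap.det (L n)| with hD
  have hD0 : D ≠ 0 := by
    rw [hD, Ne, ENNReal.ofReal_eq_zero, not_le]
    exact abs_pos.2 (hdet n)
  have hDt : D ≠ ⊤ := ENNReal.ofReal_ne_top
  -- the total volume of the bad pieces
  have hsum : ∑' G : Bad, D * V0 ≤ k * (volume W - volume K0) := by
    calc ∑' G : Bad, D * V0 ≤ ∑' G : Bad, volume (L n '' S n G ∩ (W \ K0)) := by
          refine ENNReal.tsum_le_tsum fun G => ?_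
          have h1 : volume (L n '' S n (G : ι n)) = D * volume (S n G) :=
            Measure.addHaar_image_linearMap _ _ _
          have h2 : volume (L n '' S n (G : ι n)) ≤ volume (L n '' S n G ∩ (W \ K0)) := by
            have h3 : L n '' S n (G : ι n) ⊆ (L n '' S n G ∩ (W \ K0)) ∪
                (L n '' S n G ∩ K0) := by
              intro y hy
              by_cases hyK : y ∈ K0
              · exact Or.inr ⟨hy, hyK⟩
              · exact Or.inl ⟨hy, G.2.2 hy, hyK⟩
            refine (measure_mono h3).trans ((measure_union_le _ _).trans ?_)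
            rw [hnull n G G.2.1, add_zero]
          refine le_trans ?_ h2
          rw [h1]
          exact mul_le_mul_right (hV n G) D
      _ ≤ ∑' G : ι n, volume (L n '' S n G ∩ (W \ K0)) :=
          ENNReal.tsum_comp_le_tsum_of_injective Subtype.val_injective _
      _ ≤ k * volume (W \ K0) := hmult n _ (hWm.diff hKm)
      _ ≤ k * (volume W - volume K0) := by
          have hsub : K0 ⊆ W := Metric.self_subset_cthickening K0
          rw [measure_sdiff hsub hKm.nullMeasurableSet hKt]
  -- the bad centres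
  set Z : Set (Fin m → ℝ) := ⋃ G : Bad, L n '' Metric.closedBall (p n G) ρ with hZ
  have hZv : volume Z ≤ c * (k * (volume W - volume K0)) / V0 := by
    calc volume Z ≤ ∑' G : Bad, volume (L n '' Metric.closedBall (p n (G : ι n)) ρ) :=
          measure_iUnion_le _
      _ = ∑' G : Bad, D * c := by
          refine tsum_congr fun G => ?_
          rw [Measure.addHaar_image_linearMap, hc, Measure.addHaar_closedBall_center]
      _ = (∑' G : Bad, D * V0) * (c / V0) := by
          rw [← ENNReal.tsum_mul_right]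
          refine tsum_congr fun G => ?_
          rw [mul_assoc, ENNReal.mul_div_cancel hV0 hV0t]
      _ ≤ (k * (volume W - volume K0)) * (c / V0) := by gcongr
      _ = c * (k * (volume W - volume K0)) / V0 := by
          rw [mul_comm, ENNReal.mul_div_right_comm]
  have hne : ∃ y ∈ K0, y ∉ Z := by
    by_contra hno
    push Not at hno
    exact absurd (measure_mono hno) (not_le.2 (lt_of_le_of_lt hZv hlt))
  obtain ⟨y, hyK, hyZ⟩ := hne
  have hbij : Function.Bijective (L n) := by
    have hu : IsUnit (LinearMap.det (L n)) := isUnit_iff_ne_zero.2 (hdet n)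
    exact (Module.End.isUnit_iff _).1 ((LinearMap.isUnit_iff_isUnit_det _).2 hu)
  obtain ⟨y0, rfl⟩ := hbij.2 y
  refine ⟨y0, fun G hG => ?_⟩
  by_contra hbad
  apply hyZ
  rw [hZ, mem_iUnion]
  have hsmall : ∀ v : Fin m → ℝ, ‖v‖ ≤ ρ + R0 → ‖L n v‖ ≤ ε := by
    intro v hv
    exact (hL n v).trans (mul_le_mul_of_nonneg_left hv (hθ0 n))
  refine ⟨⟨G, hbad, ?_⟩, ⟨y0, ?_, rfl⟩⟩
  · rintro _ ⟨s, hs, rfl⟩
    refine Metric.mem_cthickening_of_dist_le _ (L n y0) ε _ hyK ?_
    rw [dist_eq_norm, ← map_sub]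
    refine hsmall _ ?_
    have h1 : ‖s - p n G‖ ≤ R0 := by
      have := hS n G hs
      rwa [Metric.mem_closedBall, dist_eq_norm] at this
    calc ‖s - y0‖ = ‖(s - p n G) + (p n G - y0)‖ := by congr 1; abel
      _ ≤ ‖s - p n G‖ + ‖p n G - y0‖ := norm_add_le _ _
      _ ≤ ρ + R0 := by linarith
  · rw [Metric.mem_closedBall, dist_eq_norm, norm_sub_rev]
    exact hG

end Pool.Agent.PSC.H94
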