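import Pool.Agent.Helper95_PSC.Stmts
import Pool.Agent.Helper94_PSC.Patch

/-!
Squad PSC (Pisot substitution conjecture), module PatchStmt: existence of good patches.
-/

set_option autoImplicit false

open MeasureTheory Set Filter Topology

namespace Pool.Agent.PSC.H94

open Pool.Agent.Helper40_Pisot Pool.Agent.PSC

variable {m : ℕ}

/-- The projections of lattice points with small coordinates. -/
lemma norm_pr_le (α : Fin (m + 1) → ℝ) : ∃ A : ℝ, 0 ≤ A ∧ ∀ (v : Lat m) (B : ℝ), 0 ≤ B →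
    (∀ i, |(v i : ℝ)| ≤ B) → ‖pr α v‖ ≤ A * B := by
  refine ⟨1 + (m + 1) * ∑ i, |α i|, by positivity, fun v B hB hv => ?_⟩
  refine (pi_norm_le_iff_of_nonneg (by positivity)).2 fun i => ?_
  have h1 : |∑ j, (v j : ℝ)| ≤ (m + 1) * B := by
    calc |∑ j, (v j : ℝ)| ≤ ∑ j, |(v j : ℝ)| := Finset.abs_sum_le_sum_abs _ _
      _ ≤ ∑ _j : Fin (m + 1), B := Finset.sum_le_sum fun j _ => hv j
      _ = (m + 1) * B := by
        rw [Finset.sum_const, Finset.card_univ, Fintype.card_fin, nsmul_eq_mul]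
        push_cast
        ring
  have h2 : |α i.castSucc| ≤ ∑ i, |α i| :=
    Finset.single_le_sum (f := fun i => |α i|) (fun _ _ => abs_nonneg _)
      (Finset.mem_univ i.castSucc)
  have h3 : |(∑ j, (v j : ℝ)) * α i.castSucc| ≤ ((m + 1) * B) * ∑ i, |α i| := by
    rw [abs_mul]
    exact mul_le_mul h1 h2 (abs_nonneg _) (by positivity)
  rw [Real.norm_eq_abs]
  calc |pr α v i| ≤ |(v i.castSucc : ℝ)| + |(∑ j, (v j : ℝ)) * α i.castSucc| := abs_sub _ _
    _ ≤ B + ((m + 1) * B) * ∑ i, |α i| := add_le_add (hv _) h3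
    _ = _ := by ring

lemma pr_sub (α : Fin (m + 1) → ℝ) (v w : Lat m) : pr α (v - w) = pr α v - pr α w := by
  funext i
  simp only [pr, Pi.sub_apply]
  push_cast
  rw [Finset.sum_sub_distrib]
  ring

theorem patchStmt (hLB : LatBStmt) (hT : TileStmt) (hPa : ParStmt) (hG : GifsStmt)
    (hC : CliqueStmt) : PatchStmt := by
  classical
  intro m σ M r α l a0 x0 D k hk1 hk N
  obtain ⟨-, -, ⟨C1, ρ1, hC1, hρ1, hρ2, hdec⟩, hbij, -, hvol⟩ := hLB m σ M r α l a0 x0 D
  obtain ⟨hcomp, htr, ⟨K1, hK1⟩, hpos, -⟩ := hT m σ M r α l a0 x0 D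
  obtain ⟨hpar, -, -, -⟩ := hPa m σ M r α l a0 x0 D
  obtain ⟨hgi1, hgi2⟩ := hG m σ M r α l a0 x0 D
  obtain ⟨⟨K2, hK2⟩, hcl, -, -⟩ := hC m σ M r α l a0 x0 D k hk1 hk
  obtain ⟨A, hA0, hA⟩ := norm_pr_le (m := m) α
  have hr0 : 0 < r := by linarith [D.pf.one_lt]
  -- the radius
  have hK1' : ∀ (F : Face m), ∀ y ∈ tile σ α x0 F, ‖y - pr α F.1‖ ≤ |K1| := by
    intro F y hy
    refine (pi_norm_le_iff_of_nonneg (abs_nonneg _)).2 fun i => ?_
    rw [Real.norm_eq_abs]
    exact (hK1 F y hy i).trans (le_abs_self _)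
  have hae0 := hcl 0
  -- the clique D
  obtain ⟨yD, DD, hDC, hDm⟩ : ∃ (y : E m) (C : Finset (Face m)), Clique σ α l x0 k C ∧
      ∀ F, F ∈ C ↔ (Alive l 0 F ∧ y ∈ tile σ α x0 F) := by
    have hne : ∃ᵐ y ∂(volume : Measure (E m)), True := by
      rw [frequently_true_iff_neBot]
      infer_instance
    obtain ⟨y, -, C, h1, h2⟩ := (hne.and_eventually hae0).exists
    exact ⟨y, C, h1, h2⟩
  have hDalive : ∀ F ∈ DD, Alive l 0 F := fun F hF => ((hDm F).1 hF).1
  have hDcard : DD.card = k := hDC.1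
  have hDne : DD.Nonempty := Finset.card_pos.1 (by omega)
  set K0 : Set (E m) := tI σ α x0 DD with hK0
  have hK0c : IsCompact K0 := by
    obtain ⟨F, hF⟩ := hDne
    have hsub : K0 ⊆ tile σ α x0 F := by
      intro y hy
      exact mem_iInter₂.1 hy F hF
    refine (hcomp F).of_isClosed_subset ?_ hsub
    exact isClosed_biInter fun F _ => (hcomp F).isClosed
  have hK0p : 0 < volume K0 := hDC.2.2
  -- the minimal volume
  have hV : ∀ F : Face m, volume (tile σ α x0 F) = volume (tile σ α x0 ((0 : Lat m), F.2)) := by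
    intro F
    have h1 : F = tr F.1 ((0 : Lat m), F.2) := by
      unfold tr
      simp
    conv_lhs => rw [h1, htr, image_add_left, measure_preimage_add]
  set V0 : ENNReal := ⨅ a, volume (tile σ α x0 ((0 : Lat m), a)) with hV0
  have hV0le : ∀ F : Face m, V0 ≤ volume (tile σ α x0 F) := by
    intro F
    rw [hV F]
    exact iInf_le _ _
  have hV0ne : V0 ≠ 0 := by
    have h1 : ∃ a, V0 = volume (tile σ α x0 ((0 : Lat m), a)) := by
      obtain ⟨a, ha⟩ := Finite.exists_min (fun a => volume (tile σ α x0 ((0 : Lat m), a)))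
      exact ⟨a, le_antisymm (iInf_le _ _) (le_iInf ha)⟩
    obtain ⟨a, ha⟩ := h1
    rw [ha]
    exact (hpos _).ne'
  have hV0t : V0 ≠ ⊤ :=
    ne_top_of_le_ne_top (hcomp ((0 : Lat m), 0)).measure_lt_top.ne (iInf_le _ 0)
  -- null sets
  have hnullB : ∀ (n : ℕ) (Z : Set (E m)), volume Z = 0 → volume (Bn M α n '' Z) = 0 := by
    intro n Z hZ
    rw [hvol, hZ, mul_zero]
  have hae : ∀ (n : ℕ) (P : E m → Prop), (∀ᵐ y ∂(volume : Measure (E m)), P y) →
      ∀ᵐ y ∂(volume : Measure (E m)), ∀ z, Bn M α n z = y → P z := by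
    intro n P hP
    have h1 := hnullB n {z | ¬ P z} hP
    rw [ae_iff]
    refine measure_mono_null ?_ h1
    intro y hy
    have hy' : ¬ ∀ z, Bn M α n z = y → P z := hy
    push Not at hy'
    obtain ⟨z, hz, hPz⟩ := hy'
    exact ⟨z, hPz, hz⟩
  set ι : Type := {G : Face m // Alive l 0 G} with hι
  set good : ℕ → ι → Prop := fun n G => ∃ F ∈ DD, Par σ M n G.1 F with hgood
  have hmeasB : ∀ (n : ℕ) (G : Face m), MeasurableSet (Bn M α n '' tile σ α x0 G) := by
    intro n G
    refine (IsCompact.image (hcomp G) ?_).measurableSet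
    exact LinearMap.continuous_of_finiteDimensional _
  have hnull : ∀ (n : ℕ) (G : ι), ¬ good n G →
      volume (Bn M α n '' tile σ α x0 G.1 ∩ K0) = 0 := by
    intro n G hbad
    obtain ⟨F, ⟨hF1, hF2⟩, -⟩ := hpar n 0 G.1 G.2
    rw [mul_zero] at hF2
    have hFD : F ∉ DD := fun h => hbad ⟨F, h, hF1⟩
    have h1 := hgi1 n F
    have h2 := hk 0
    have h3 : ∀ᵐ y ∂(volume : Measure (E m)), ¬ (y ∈ Bn M α n '' tile σ α x0 G.1 ∩ K0) := by
      filter_upwards [h1, h2] with y hy1 hy2 hy3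
      have hyF : y ∈ tile σ α x0 F := hy1.2 ⟨G.1, hF1, hy3.1⟩
      set s : Set (Face m) := {F : Face m | Alive l 0 F ∧ y ∈ tile σ α x0 F} with hs
      have hsf : s.Finite := Set.finite_of_ncard_ne_zero (by rw [hy2]; omega)
      have hsub : (insert F DD : Finset (Face m)) ⊆ hsf.toFinset := by
        intro F' hF'
        rw [Set.Finite.mem_toFinset]
        rcases Finset.mem_insert.1 hF' with rfl | h
        · exact ⟨hF2, hyF⟩
        · exact ⟨hDalive F' h, mem_iInter₂.1 hy3.2 F' h⟩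
      have h4 := Finset.card_le_card hsub
      rw [Finset.card_insert_of_notMem hFD, ← Set.ncard_eq_toFinset_card s hsf, hy2, hDcard] at h4
      omega
    rw [ae_iff] at h3
    exact measure_mono_null (fun y hy => not_not.2 hy) h3
  have hmult : ∀ (n : ℕ), ∀ B : Set (E m), MeasurableSet B →
      ∑' G : ι, volume (Bn M α n '' tile σ α x0 G.1 ∩ B) ≤ (k : ENNReal) * volume B := by
    intro n B hB
    have h1 : ∀ G : ι, volume (Bn M α n '' tile σ α x0 G.1 ∩ B) =
        ∫⁻ y in B, (Bn M α n '' tile σ α x0 G.1).indicator (fun _ => (1 : ENNReal)) y := by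
      intro G
      rw [lintegral_indicator (hmeasB n G.1), setLIntegral_const, one_mul,
        Measure.restrict_apply (hmeasB n G.1)]
    calc ∑' G : ι, volume (Bn M α n '' tile σ α x0 G.1 ∩ B)
        = ∑' G : ι, ∫⁻ y in B,
            (Bn M α n '' tile σ α x0 G.1).indicator (fun _ => (1 : ENNReal)) y :=
          tsum_congr h1
      _ = ∫⁻ y in B, ∑' G : ι,
            (Bn M α n '' tile σ α x0 G.1).indicator (fun _ => (1 : ENNReal)) y := by
          rw [lintegral_tsum]
          intro G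
          exact (measurable_const.indicator (hmeasB n G.1)).aemeasurable
      _ ≤ ∫⁻ _y in B, (k : ENNReal) := by
          refine lintegral_mono_ae (ae_restrict_of_ae ?_)
          filter_upwards [hae n _ (hk 0)] with y hy
          obtain ⟨z, rfl⟩ := (hbij n).2 y
          have hz := hy z rfl
          set s : Set (Face m) := {F : Face m | Alive l 0 F ∧ z ∈ tile σ α x0 F} with hs
          have hsf : s.Finite := Set.finite_of_ncard_ne_zero (by rw [hz]; omega)
          have h2 : ∀ G : ι, (Bn M α n '' tile σ α x0 G.1).indicator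
              (fun _ => (1 : ENNReal)) (Bn M α n z) =
              (hsf.toFinset.subtype (Alive l 0) : Set ι).indicator (fun _ => (1 : ENNReal)) G := by
            intro G
            by_cases hzG : z ∈ tile σ α x0 G.1
            · rw [Set.indicator_of_mem (mem_image_of_mem _ hzG), Set.indicator_of_mem]
              rw [Finset.mem_coe, Finset.mem_subtype, Set.Finite.mem_toFinset]
              exact ⟨G.2, hzG⟩
            · rw [Set.indicator_of_notMem, Set.indicator_of_notMem]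
              · rw [Finset.mem_coe, Finset.mem_subtype, Set.Finite.mem_toFinset]
                exact fun h => hzG h.2
              · rintro ⟨z', hz', he⟩
                rw [(hbij n).1 he] at hz'
                exact hzG hz'
          rw [tsum_congr h2, ← tsum_subtype]
          simp only [Finset.coe_sort_coe]
          rw [tsum_fintype, Finset.sum_const, Finset.card_univ, Fintype.card_coe, nsmul_eq_mul,
            mul_one]
          have h3 : (hsf.toFinset.subtype (Alive l 0)).card ≤ k := by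
            rw [Finset.card_subtype]
            refine (Finset.card_filter_le _ _).trans ?_
            rw [← Set.ncard_eq_toFinset_card s hsf, hz]
          exact_mod_cast h3
      _ = (k : ENNReal) * volume B := by
          rw [lintegral_const, Measure.restrict_apply_univ]
  have hdet : ∀ n, LinearMap.det (Bn M α n) ≠ 0 := by
    intro n
    have h1 : IsUnit (Bn M α n) := (Module.End.isUnit_iff _).2 (hbij n)
    exact ((LinearMap.isUnit_iff_isUnit_det _).1 h1).ne_zero
  -- the constants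
  set N' : ℝ := |(N : ℝ)| + |(K2 : ℝ)| with hN'
  obtain ⟨n0, hn0⟩ := patch (m := m) (k : ENNReal) (ENNReal.natCast_ne_top k) K0 hK0c hK0p
    (fun _ => ι) (fun _ G => pr α G.1.1) (fun _ G => tile σ α x0 G.1) |K1|
    (fun n G y hy => by
      rw [Metric.mem_closedBall, dist_eq_norm]
      exact hK1' G.1 y hy) V0 hV0ne hV0t (fun n G => hV0le G.1)
    (fun n => Bn M α n) hdet (fun n => C1 * ρ1 ^ n) (fun n => by positivity)
    (by
      have := (tendsto_pow_atTop_nhds_zero_of_lt_one hρ1.le hρ2).const_mul C1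
      simpa using this)
    hdec good hnull hmult (A * N' + (|K1| + 1))
  obtain ⟨y0, hy0⟩ := hn0 n0 le_rfl
  -- a clique near `y0`
  obtain ⟨y, hy, C0, hC0, hC0m⟩ : ∃ y ∈ Metric.ball y0 1, ∃ C : Finset (Face m),
      Clique σ α l x0 k C ∧ ∀ F, F ∈ C ↔ (Alive l 0 F ∧ y ∈ tile σ α x0 F) := by
    have hb : volume (Metric.ball y0 (1 : ℝ)) ≠ 0 :=
      (Metric.measure_ball_pos volume y0 one_pos).ne'
    have hfr : ∃ᵐ y ∂(volume : Measure (E m)), y ∈ Metric.ball y0 1 :=
      frequently_ae_mem_iff.2 hb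
    obtain ⟨y, hy, C, h1, h2⟩ := (hfr.and_eventually hae0).exists
    exact ⟨y, hy, C, h1, h2⟩
  have hnear : ∀ F0 ∈ C0, ‖pr α F0.1 - y0‖ ≤ |K1| + 1 := by
    intro F0 hF0
    have h1 := hK1' F0 y ((hC0m F0).1 hF0).2
    rw [norm_sub_rev] at h1
    have h2 : ‖y - y0‖ ≤ 1 := by
      rw [Metric.mem_ball, dist_eq_norm] at hy
      exact hy.le
    calc ‖pr α F0.1 - y0‖ = ‖(pr α F0.1 - y) + (y - y0)‖ := by congr 1; abel
      _ ≤ ‖pr α F0.1 - y‖ + ‖y - y0‖ := norm_add_le _ _
      _ ≤ |K1| + 1 := add_le_add h1 h2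
  have hgoodC : ∀ C, Clique σ α l x0 k C → AliveS l 0 C →
      (∃ F ∈ C, ∃ F0 ∈ C0, ∀ i, |F.1 i - F0.1 i| ≤ N) → ∀ G ∈ C, ∃ F ∈ DD, Par σ M n0 G F := by
    rintro C hCc hCa ⟨F, hF, F0, hF0, hFF⟩ G hG
    have h1 : ‖pr α (G.1 - F0.1)‖ ≤ A * N' := by
      refine hA _ _ (by positivity) fun i => ?_
      have e1 := hK2 C hCc G hG F hF i
      have e2 := hFF i
      have e3 : ((G.1 - F0.1) i : ℝ) = ((G.1 i - F.1 i : ℤ) : ℝ) + ((F.1 i - F0.1 i : ℤ) : ℝ) := by
        rw [Pi.sub_apply]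
        push_cast
        ring
      rw [e3]
      have e4 : |((G.1 i - F.1 i : ℤ) : ℝ)| ≤ (K2 : ℝ) := by exact_mod_cast e1
      have e5 : |((F.1 i - F0.1 i : ℤ) : ℝ)| ≤ (N : ℝ) := by exact_mod_cast e2
      calc _ ≤ |((G.1 i - F.1 i : ℤ) : ℝ)| + |((F.1 i - F0.1 i : ℤ) : ℝ)| := abs_add_le _ _
        _ ≤ |(K2 : ℝ)| + |(N : ℝ)| :=
          add_le_add (e4.trans (le_abs_self _)) (e5.trans (le_abs_self _))
        _ = N' := by rw [hN', add_comm]
    have h2 := hy0 ⟨G, hCa G hG⟩ (by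
      change ‖pr α G.1 - y0‖ ≤ _
      calc ‖pr α G.1 - y0‖ = ‖pr α (G.1 - F0.1) + (pr α F0.1 - y0)‖ := by
            rw [pr_sub]
            congr 1
            abel
        _ ≤ ‖pr α (G.1 - F0.1)‖ + ‖pr α F0.1 - y0‖ := norm_add_le _ _
        _ ≤ A * N' + (|K1| + 1) := add_le_add h1 (hnear F0 hF0))
    exact h2
  -- the labelling
  have e : DD ≃ Fin k := DD.equivFinOfCardEq hDcard
  let lab : Face m → Fin k := fun G =>
    if h : ∃ F ∈ DD, Par σ M n0 G F then e ⟨h.choose, h.choose_spec.1⟩ else ⟨0, by omega⟩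
  refine ⟨0, C0, lab, hC0, fun F hF => ((hC0m F).1 hF).1, fun C hCc hCa hCN => ?_⟩
  intro G hG G' hG' heq
  have h1 := hgoodC C hCc hCa hCN G hG
  have h2 := hgoodC C hCc hCa hCN G' hG'
  by_contra hne
  have h3 : h1.choose = h2.choose := by
    simp only [lab] at heq
    rw [dif_pos h1, dif_pos h2] at heq
    exact congrArg Subtype.val (e.injective heq)
  have h4 := hgi2 n0 G G' h1.choose h1.choose_spec.2 (by rw [h3]; exact h2.choose_spec.2) hne
  have h5 : volume (tI σ α x0 C) = 0 := by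
    refine measure_mono_null ?_ h4
    intro y hy
    exact ⟨mem_iInter₂.1 hy G hG, mem_iInter₂.1 hy G' hG'⟩
  exact absurd h5 hCc.2.2.ne'

end Pool.Agent.PSC.H94
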